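import Pool.Agent.Work.MP_76e8a0_lc.Core

/-!
Diamond on the regular points implies diamond on the singular points at every inaccessible
cardinal that has a thin club.
-/

open Pool.Agent.DiaSing

universe u

theorem Pool.Agent.Results.MP_76e8a0_lc.NarrowClubs.result (κ : Cardinal.{u})
    (hκ : κ.IsInaccessible) (hD : ∃ D : Set Ordinal.{u}, Club κ.ord D ∧ Thin κ.ord D)
    (h : Dia κ.ord {α | α < κ.ord ∧ IsReg α}) :
    Dia κ.ord {α | α < κ.ord ∧ IsSing α} :=
  let ⟨_, h1, h2⟩ := hD
  main hκ h1 h2 h
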